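import Mathlib

/-!
MP_3976d4_co, partial answer to Q1: the fixed point property when every element below the special
element `s` is minimal (`s` has height at most `1`), for posets without infinite chains.
-/

set_option autoImplicit false

universe u

namespace Pool.Agent.Helper49.SP.MinimalBelow

section

variable {P : Type u} [PartialOrder P]

/-- no element below `s` lies below `x`, and `s` does not -/
def Emp (s x : P) : Prop := ¬ s ≤ x ∧ ∀ u, u < s → ¬ u ≤ x

/-- `d` is the only element below `s` which lies below `x`, and `s` does not lie below `x` -/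
def Lab (s x d : P) : Prop := d < s ∧ d ≤ x ∧ ¬ s ≤ x ∧ ∀ u, u < s → u ≤ x → u = d

/-- the joins of `s` with `f c` lie above `c` -/
def Asc (s : P) (f : P → P) (c : P) : Prop := ∀ z, IsLUB ({s, f c} : Set P) z → c ≤ z

/-- the climb `c, s v f c, ...` ends at a point `w` with `Lab s (f w) d` -/
inductive Ex (s : P) (f : P → P) : P → P → Prop
  | base (c d : P) : Lab s (f c) d → Ex s f c d
  | step (c z d : P) : Emp s (f c) → IsLUB ({s, f c} : Set P) z → c ≤ z → Ex s f z d → Ex s f c d

theorem isLUB_pair_left {s x z : P} (h : IsLUB ({s, x} : Set P) z) : s ≤ z :=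
  h.1 (by simp)

theorem isLUB_pair_right {s x z : P} (h : IsLUB ({s, x} : Set P) z) : x ≤ z :=
  h.1 (by simp)

theorem isLUB_pair_le {s x z y : P} (h : IsLUB ({s, x} : Set P) z) (h1 : s ≤ y) (h2 : x ≤ y) :
    z ≤ y := by
  refine h.2 ?_
  intro w hw
  simp only [Set.mem_insert_iff, Set.mem_singleton_iff] at hw
  rcases hw with rfl | rfl
  · exact h1
  · exact h2

/-- the hypotheses, collected -/
structure Hyp (s : P) (f : P → P) : Prop where
  gt : WellFoundedGT P
  h1 : ∀ x : P, (∃ z : P, IsLUB ({s, x} : Set P) z) ∨ (∃ z : P, IsGLB ({s, x} : Set P) z)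
  h2 : ∀ x y : P, x < y → (¬ ∃ z : P, IsGLB ({s, x} : Set P) z) →
    ∀ m : P, IsGLB ({s, y} : Set P) m → ∃ z : P, IsLUB ({m, x} : Set P) z
  hm : ∀ u : P, u < s → ∀ v : P, v ≤ u → v = u
  mono : Monotone f
  up : ∀ x : P, ¬ x ≤ f x
  down : ∀ x : P, ¬ f x ≤ x

variable {s : P} {f : P → P}

theorem Hyp.lab_of_no_join (H : Hyp s f) (x : P) (hx : ¬ ∃ z : P, IsLUB ({s, x} : Set P) z) :
    ∃ d, Lab s x d := by
  have hsx : ¬ s ≤ x := by
    intro h
    refine hx ⟨x, ?_, ?_⟩
    · intro w hw
      simp only [Set.mem_insert_iff, Set.mem_singleton_iff] at hw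
      rcases hw with rfl | rfl
      · exact h
      · exact le_refl _
    · intro w hw
      exact hw (by simp)
  obtain ⟨d, hd⟩ := (H.h1 x).resolve_left hx
  have hds : d ≤ s := hd.1 (by simp)
  have hdx : d ≤ x := hd.1 (by simp)
  have hlt : d < s := lt_of_le_of_ne hds (fun h => hsx (h ▸ hdx))
  refine ⟨d, hlt, hdx, hsx, fun u hu hux => ?_⟩
  have : u ≤ d := by
    refine hd.2 ?_
    intro w hw
    simp only [Set.mem_insert_iff, Set.mem_singleton_iff] at hw
    rcases hw with rfl | rfl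
    · exact hu.le
    · exact hux
  exact H.hm d hlt u this

theorem Emp.no_meet {x : P} (h : Emp s x) : ¬ ∃ z : P, IsGLB ({s, x} : Set P) z := by
  rintro ⟨z, hz⟩
  have h1 : z ≤ s := hz.1 (by simp)
  have h2 : z ≤ x := hz.1 (by simp)
  rcases h1.eq_or_lt with h3 | h3
  · exact h.1 (h3 ▸ h2)
  · exact h.2 z h3 h2

theorem Hyp.join_of_emp (H : Hyp s f) {x : P} (h : Emp s x) :
    ∃ z : P, IsLUB ({s, x} : Set P) z :=
  (H.h1 x).resolve_right h.no_meet

theorem Lab.isGLB {x d : P} (h : Lab s x d) : IsGLB ({s, x} : Set P) d := by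
  refine ⟨?_, ?_⟩
  · intro w hw
    simp only [Set.mem_insert_iff, Set.mem_singleton_iff] at hw
    rcases hw with rfl | rfl
    · exact h.1.le
    · exact h.2.1
  · intro w hw
    have h1 : w ≤ s := hw (by simp)
    have h2 : w ≤ x := hw (by simp)
    rcases h1.eq_or_lt with h3 | h3
    · exact absurd (h3 ▸ h2) h.2.2.1
    · exact (h.2.2.2 w h3 h2).le

/-- a value below a value of label `d` has empty label or label `d` -/
theorem Lab.below {x y d : P} (h : Lab s y d) (hxy : x ≤ y) (hd : ¬ d ≤ x) : Emp s x :=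
  ⟨fun h1 => h.2.2.1 (h1.trans hxy), fun u hu hux => by
    have := h.2.2.2 u hu (hux.trans hxy)
    exact hd (this ▸ hux)⟩

theorem asc_of_isLUB (H : Hyp s f) {e v : P} (hev : e ≤ v) (hv : IsLUB ({s, f e} : Set P) v) :
    Asc s f v := fun _ hz =>
  isLUB_pair_le hv (isLUB_pair_left hz) ((H.mono hev).trans (isLUB_pair_right hz))

/-- the labels which are neither empty nor a single element do not occur in a climb -/
theorem Hyp.no_bad (H : Hyp s f) (c : P) (hc : Asc s f c) (h1 : ¬ Emp s (f c))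
    (h2 : ¬ ∃ d, Lab s (f c) d) : False := by
  have := H.gt
  induction c using WellFoundedGT.induction with
  | ind c ih =>
    obtain ⟨z, hz⟩ : ∃ z : P, IsLUB ({s, f c} : Set P) z := by
      by_contra h
      exact h2 (H.lab_of_no_join _ h)
    have hcz : c ≤ z := hc z hz
    have hlt : c < z := lt_of_le_of_ne hcz (fun h => H.down c (by
      have := isLUB_pair_right hz
      rwa [← h] at this))
    have hf : f c ≤ f z := H.mono hcz
    refine ih z hlt (asc_of_isLUB H hcz hz) ?_ ?_
    · intro hE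
      exact h1 ⟨fun h => hE.1 (h.trans hf), fun u hu h => hE.2 u hu (h.trans hf)⟩
    · rintro ⟨d, hd⟩
      by_cases hdc : d ≤ f c
      · exact h2 ⟨d, hd.1, hdc, fun h => hd.2.2.1 (h.trans hf),
          fun u hu h => hd.2.2.2 u hu (h.trans hf)⟩
      · exact h1 (hd.below hf hdc)

theorem Hyp.exists_ex (H : Hyp s f) (c : P) (hc : Asc s f c) : ∃ d, Ex s f c d := by
  have := H.gt
  induction c using WellFoundedGT.induction with
  | ind c ih =>
    by_cases h2 : ∃ d, Lab s (f c) d
    · obtain ⟨d, hd⟩ := h2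
      exact ⟨d, Ex.base c d hd⟩
    by_cases h1 : Emp s (f c)
    · obtain ⟨z, hz⟩ := H.join_of_emp h1
      have hcz : c ≤ z := hc z hz
      have hlt : c < z := lt_of_le_of_ne hcz (fun h => H.down c (by
        have := isLUB_pair_right hz
        rwa [← h] at this))
      obtain ⟨d, hd⟩ := ih z hlt (asc_of_isLUB H hcz hz)
      exact ⟨d, Ex.step c z d h1 hz hcz hd⟩
    · exact (H.no_bad c hc h1 h2).elim

theorem Ex.exit {c d : P} (h : Ex s f c d) : ∃ w, c ≤ w ∧ Lab s (f w) d := by
  induction h with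
  | base c d h => exact ⟨c, le_refl _, h⟩
  | step c z d _ _ hcz _ ih =>
    obtain ⟨w, hw, hl⟩ := ih
    exact ⟨w, hcz.trans hw, hl⟩

theorem Ex.lab_eq {c d d' : P} (h : Ex s f c d) (h' : Lab s (f c) d') : d' = d := by
  cases h with
  | base _ _ h => exact h.2.2.2 d' h'.1 h'.2.1
  | step _ z _ hE _ _ _ => exact absurd h'.2.1 (hE.2 d' h'.1)

/-- the label of the exit is the same for `c` and for a point between `c` and its successor -/
theorem Hyp.compare (H : Hyp s f) {c d : P} (h : Ex s f c d) :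
    ∀ c', c ≤ c' → (Emp s (f c) → ∀ z, IsLUB ({s, f c} : Set P) z → c' ≤ z) → Asc s f c' →
      Ex s f c' d := by
  induction h with
  | base c d h =>
    intro c' hcc' _ hc'
    have hd : d ≤ f c' := h.2.1.trans (H.mono hcc')
    have h1 : ¬ Emp s (f c') := fun hE => hE.2 d h.1 hd
    by_cases h2 : ∃ d', Lab s (f c') d'
    · obtain ⟨d', hd'⟩ := h2
      have : d = d' := hd'.2.2.2 d h.1 hd
      exact Ex.base c' d (this ▸ hd')
    · exact (H.no_bad c' hc' h1 h2).elim
  | step c z d hE hz hcz hex ih =>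
    intro c' hcc' hle hc'
    have hcz' : c' ≤ z := hle hE z hz
    have hza : Asc s f z := asc_of_isLUB H hcz hz
    by_cases h2 : ∃ d', Lab s (f c') d'
    · obtain ⟨d', hd'⟩ := h2
      have hdz : d' ≤ f z := hd'.2.1.trans (H.mono hcz')
      have h1 : ¬ Emp s (f z) := fun hE => hE.2 d' hd'.1 hdz
      by_cases h3 : ∃ d'', Lab s (f z) d''
      · obtain ⟨d'', hd''⟩ := h3
        have e1 : d' = d'' := hd''.2.2.2 d' hd'.1 hdz
        have e2 : d'' = d := hex.lab_eq hd''
        exact Ex.base c' d ((e1.trans e2) ▸ hd')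
      · exact (H.no_bad z hza h1 h3).elim
    · by_cases h1 : Emp s (f c')
      · obtain ⟨z', hz'⟩ := H.join_of_emp h1
        have hcz2 : c' ≤ z' := hc' z' hz'
        refine Ex.step c' z' d h1 hz' hcz2 (ih z' ?_ ?_ (asc_of_isLUB H hcz2 hz'))
        · exact isLUB_pair_le hz (isLUB_pair_left hz')
            ((H.mono hcc').trans (isLUB_pair_right hz'))
        · intro _ z2 hz2
          exact isLUB_pair_le hz' (isLUB_pair_left hz2)
            ((H.mono hcz').trans (isLUB_pair_right hz2))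
      · exact (H.no_bad c' hc' h1 h2).elim

/-- the invariant of the second climb `d, d v f d, ...` -/
def Inv (s : P) (f : P → P) (d e : P) : Prop :=
  d ≤ e ∧ Emp s (f e) ∧ (∀ z, IsLUB ({d, f e} : Set P) z → e ≤ z) ∧
    ∃ v, IsLUB ({s, f e} : Set P) v ∧ e ≤ v ∧ Ex s f v d

theorem Hyp.inv_step (H : Hyp s f) {d e : P} (h : Inv s f d e) : ∃ e', e < e' ∧ Inv s f d e' := by
  obtain ⟨hde, hE, hJ, v, hv, hev, hex⟩ := h
  obtain ⟨w, hvw, hl⟩ := hex.exit
  have hfe : f e ≤ f w := H.mono (hev.trans hvw)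
  have hlt : f e < f w := lt_of_le_of_ne hfe (fun h => hE.2 d hl.1 (h ▸ hl.2.1))
  obtain ⟨e', he'⟩ := H.h2 (f e) (f w) hlt hE.no_meet d hl.isGLB
  have hee' : e ≤ e' := hJ e' he'
  have hfee' : f e ≤ e' := isLUB_pair_right he'
  have hlt' : e < e' := lt_of_le_of_ne hee' (fun h => H.down e (h ▸ hfee'))
  have he'v : e' ≤ v :=
    isLUB_pair_le he' (hl.1.le.trans (isLUB_pair_left hv)) (isLUB_pair_right hv)
  have hfe' : f e ≤ f e' := H.mono hee'
  have hnd : ¬ d ≤ f e' := fun h => H.up e' (isLUB_pair_le he' h hfe')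
  have hE' : Emp s (f e') := hl.below (H.mono (he'v.trans hvw)) hnd
  obtain ⟨v', hv'⟩ := H.join_of_emp hE'
  have hvv' : v ≤ v' :=
    isLUB_pair_le hv (isLUB_pair_left hv') (hfe'.trans (isLUB_pair_right hv'))
  have he'v' : e' ≤ v' := he'v.trans hvv'
  refine ⟨e', hlt', isLUB_pair_left he', hE', ?_, v', hv', he'v', ?_⟩
  · intro z hz
    exact isLUB_pair_le he' (isLUB_pair_left hz) (hfe'.trans (isLUB_pair_right hz))
  · refine H.compare hex v' hvv' ?_ (asc_of_isLUB H he'v' hv')
    intro _ z hz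
    exact isLUB_pair_le hv' (isLUB_pair_left hz) ((H.mono he'v).trans (isLUB_pair_right hz))

theorem Hyp.no_inv (H : Hyp s f) (d e : P) (h : Inv s f d e) : False := by
  have := H.gt
  induction e using WellFoundedGT.induction with
  | ind e ih =>
    obtain ⟨e', hlt, h'⟩ := H.inv_step h
    exact ih e' hlt h'

theorem Hyp.false (H : Hyp s f) : False := by
  have hs : Asc s f s := fun z hz => isLUB_pair_left hz
  obtain ⟨d, hd⟩ := H.exists_ex s hs
  obtain ⟨w, hsw, hl⟩ := hd.exit
  have hds : d ≤ s := hl.1.le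
  have hE : Emp s (f d) := hl.below (H.mono (hds.trans hsw)) (H.up d)
  obtain ⟨v, hv⟩ := H.join_of_emp hE
  have hsv : s ≤ v := isLUB_pair_left hv
  have hdv : d ≤ v := hds.trans hsv
  refine H.no_inv d d ⟨le_refl d, hE, fun z hz => isLUB_pair_left hz, v, hv, hdv, ?_⟩
  refine H.compare hd v hsv ?_ (asc_of_isLUB H hdv hv)
  intro _ z hz
  exact isLUB_pair_le hv (isLUB_pair_left hz) ((H.mono hds).trans (isLUB_pair_right hz))

end

/-- Let `P` be a poset without infinite chains (for instance of finite length) and `s` a special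
element of `P` such that every element below `s` is minimal. Then `P` has the fixed point
property. -/
theorem fixed_of_minimal :
    ∀ (P : Type u) [PartialOrder P], WellFounded (fun x y : P => x < y) →
      WellFounded (fun x y : P => y < x) → ∀ s : P,
        (∀ x : P, (∃ z : P, IsLUB ({s, x} : Set P) z) ∨ (∃ z : P, IsGLB ({s, x} : Set P) z)) →
        (∀ x y : P, x < y → (¬ ∃ z : P, IsGLB ({s, x} : Set P) z) →
          ∀ m : P, IsGLB ({s, y} : Set P) m → ∃ z : P, IsLUB ({m, x} : Set P) z) →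
        (∀ u : P, u < s → ∀ v : P, v ≤ u → v = u) →
        ∀ f : P → P, Monotone f → ∃ x : P, f x = x := by
  intro P _ hlt hgt s h1 h2 hm f hf
  by_contra hno
  push Not at hno
  have up : ∀ x : P, ¬ x ≤ f x := by
    intro x hx
    obtain ⟨m, hm, hmax⟩ := hgt.has_min {x : P | x ≤ f x} ⟨x, hx⟩
    have h3 : m ≤ f m := hm
    have h4 : ¬ m < f m := hmax (f m) (hf h3)
    exact hno m ((h3.eq_or_lt.resolve_right h4).symm)
  have down : ∀ x : P, ¬ f x ≤ x := by
    intro x hx
    obtain ⟨m, hm, hmin⟩ := hlt.has_min {x : P | f x ≤ x} ⟨x, hx⟩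
    have h3 : f m ≤ m := hm
    have h4 : ¬ f m < m := hmin (f m) (hf h3)
    exact hno m (h3.eq_or_lt.resolve_right h4)
  exact Hyp.false (s := s) (f := f) ⟨⟨hgt⟩, h1, h2, hm, hf, up, down⟩

end Pool.Agent.Helper49.SP.MinimalBelow
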